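import Pool.Agent.Helper59.ZSR.Main

/-!
MP_dc28e4_co, Q1: the limit of `f(m)` is not 1, since `f(m) ≥ 18/17 - 11/m` for all `m ≥ 1`.
-/

set_option autoImplicit false

namespace Pool.Agent.Results.MP_dc28e4_co.ZeroSumForests

open Pool.Agent.Helper59.ZSR

/-- For every `m ≥ 1` the supremum `f m` of the quotients `R(G,ℤ_m) / R(G,2)` over all forests `G` with exactly `m` edges is at
least `18/17 - 11/m`. -/
theorem result : ∀ m : ℕ, 1 ≤ m → 18 / 17 - 11 / (m : ℝ) ≤ f m :=
  f_ge

end Pool.Agent.Results.MP_dc28e4_co.ZeroSumForests
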